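import Pool.Agent.U307.RAD.Stm2
import Pool.Agent.U128.RAD.PF
import Pool.Agent.U94.RAD.EN

/-!
# Project RAD, package EU (helper823): two more energies of the kernel
-/

set_option autoImplicit false

namespace Pool.Agent.U823.RAD.EU

open Pool.Agent.U307.RAD Finset Polynomial Pool.Agent.U94.RAD.EN MeasureTheory

/-- `∏_{i < n} (x - i) / (x + l + 1 + i)` -/
noncomputable def MM (n l : ℕ) (x : ℝ) : ℝ := ∏ i ∈ range n, ((x - i) / (x + l + 1 + i))

lemma MM_nat (n l j : ℕ) : MM n l j = Mm n l j := rfl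

lemma MM_zero {n l j : ℕ} (h : j < n) : MM n l j = 0 := by
  rw [MM_nat]; exact Mm_zero h

open Pool.Agent.U128.RAD.PF in
/-- partial fractions at real points -/
lemma pf {n : ℕ} (l : ℕ) (hn : 1 ≤ n) (x : ℝ) (hx : ∀ i : ℕ, i < n → x + l + 1 + i ≠ 0) :
    ∑ i ∈ range n, Cc n l i / ((l : ℝ) + 1 + i + x) = 1 - MM n l x := by
  have h1 := congrArg (fun q : ℝ[X] => q.eval x) (key l hn)
  simp only [eval_sub, eval_finsetSum, eval_mul, eval_C, eval_prod, eval_X] at h1
  have hP : (Pool.Agent.U128.RAD.PF.P n l).eval x = ∏ i ∈ range n, (x + l + 1 + i) := by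
    unfold Pool.Agent.U128.RAD.PF.P
    rw [eval_prod]
    refine prod_congr rfl fun i _ => ?_
    rw [eval_sub, eval_X, eval_C, v]
    ring
  have hN : (N n).eval x = ∏ i ∈ range n, (x - i) := by
    unfold N
    rw [eval_prod]
    refine prod_congr rfl fun i _ => ?_
    rw [eval_sub, eval_X, eval_C]
  have hpos : ∏ i ∈ range n, (x + l + 1 + i) ≠ 0 :=
    prod_ne_zero_iff.2 fun i hi => hx i (mem_range.1 hi)
  unfold MM
  rw [prod_div_distrib, eq_sub_iff_add_eq]
  rw [hP, hN] at h1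
  have h2 : ∑ i ∈ range n, Cc n l i / ((l : ℝ) + 1 + i + x) =
      (∑ i ∈ range n, Cc n l i * ∏ h ∈ (range n).erase i, (x - v l h)) /
        ∏ i ∈ range n, (x + l + 1 + i) := by
    rw [sum_div]
    refine sum_congr rfl fun i hi => ?_
    have h3 : ∏ i ∈ range n, (x + l + 1 + i) =
        ((l : ℝ) + 1 + i + x) * ∏ h ∈ (range n).erase i, (x - v l h) := by
      rw [← mul_prod_erase _ _ hi]
      congr 1
      · ring
      · refine prod_congr rfl fun h _ => ?_
        unfold v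
        ring
    have h4 : ∏ h ∈ (range n).erase i, (x - v l h) ≠ 0 := by
      refine prod_ne_zero_iff.2 fun h hh => ?_
      have h6 : x - v l h = x + l + 1 + h := by unfold v; ring
      rw [h6]
      exact hx h (mem_range.1 (mem_of_mem_erase hh))
    have h5 : ((l : ℝ) + 1 + i + x) ≠ 0 := by
      have := hx i (mem_range.1 hi)
      intro h0
      apply this
      linarith
    rw [h3]
    field_simp
  rw [h2, ← h1, ← add_div, sub_add_cancel, div_self hpos]

/-- `uu` divided by `r ^ (l - e)` -/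
noncomputable def ww (n l e : ℕ) (r : ℝ) : ℝ := 2 * ∑ i ∈ range n, Cc n l i * r ^ (e + 2 * i)

lemma uu_eq (n l : ℕ) : uu n l = ww n l l := rfl

lemma ww_succ (n l e : ℕ) (r : ℝ) : ww n l (e + 1) r = r * ww n l e r := by
  unfold ww
  rw [mul_left_comm r, mul_sum (range n) _ r]
  congr 1
  refine sum_congr rfl fun i _ => ?_
  ring

lemma cont_ww (n l e : ℕ) : Continuous (ww n l e) := by
  unfold ww
  fun_prop

/-- moments -/
lemma mom {n : ℕ} (l : ℕ) (hn : 1 ≤ n) (e k : ℕ) (x : ℝ) (h : ((e + k : ℕ) : ℝ) = 2 * l + 2 * x + 1)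
    (hx : ∀ i : ℕ, i < n → x + l + 1 + i ≠ 0) :
    ∫ r in (0 : ℝ)..1, ww n l e r * r ^ k = 1 - MM n l x := by
  rw [← pf l hn x hx]
  have h1 : ∀ r : ℝ, ww n l e r * r ^ k = ∑ i ∈ range n, (2 * Cc n l i) * r ^ (e + k + 2 * i) := by
    intro r
    unfold ww
    rw [mul_sum, sum_mul]
    refine sum_congr rfl fun i _ => ?_
    rw [show e + k + 2 * i = (e + 2 * i) + k by ring, pow_add]
    ring
  simp only [h1]
  rw [intervalIntegral.integral_finsetSum
    (fun i _ => (Continuous.intervalIntegrable (by fun_prop) _ _))]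
  refine sum_congr rfl fun i hi => ?_
  rw [intervalIntegral.integral_const_mul, integral_pow]
  have h2 := hx i (mem_range.1 hi)
  have h4 : ((e + k + 2 * i : ℕ) : ℝ) = 2 * l + 2 * x + 1 + 2 * i := by
    rw [Nat.cast_add, h]
    push_cast
    ring
  rw [h4, one_pow, zero_pow (by omega), sub_zero]
  have h3 : ((l : ℝ) + 1 + i + x) ≠ 0 := by
    intro h0
    apply h2
    linarith
  have h5 : (2 * (l : ℝ) + 2 * x + 1 + 2 * i + 1) = 2 * ((l : ℝ) + 1 + i + x) := by ring
  rw [h5]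
  field_simp

/-- the energy as a sum -/
lemma as_sum {n : ℕ} (l : ℕ) (hn : 1 ≤ n) (e k : ℕ) (x : ℝ)
    (h : ((e + k : ℕ) : ℝ) = 2 * l + 2 * x + 1)
    (hx : ∀ i j : ℕ, x + l + 1 + i + j ≠ 0) :
    ∫ r in (0 : ℝ)..1, ww n l e r * ww n l k r * (1 - r ^ 2) ^ 2 =
      ∑ j ∈ range n, 2 * Cc n l j * (2 * MM n l (x + j + 1) - MM n l (x + j + 2) - MM n l (x + j)) := by
  have hm : ∀ j : ℕ, ∫ r in (0 : ℝ)..1, ww n l e r * r ^ (k + 2 * j) = 1 - MM n l (x + j) := by
    intro j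
    refine mom l hn e (k + 2 * j) (x + j) ?_ ?_
    · rw [← add_assoc, Nat.cast_add, h]
      push_cast
      ring
    · intro i _
      have := hx i j
      intro h0
      apply this
      linarith
  have hint : ∀ j, IntervalIntegrable (fun r : ℝ => ww n l e r * r ^ (k + 2 * j)) volume 0 1 := fun j =>
    ((cont_ww n l e).mul (by fun_prop)).intervalIntegrable _ _
  have e : ∀ r : ℝ, ww n l e r * ww n l k r * (1 - r ^ 2) ^ 2 =
      ∑ j ∈ range n, 2 * Cc n l j * (ww n l e r * r ^ (k + 2 * j) -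
        2 * (ww n l e r * r ^ (k + 2 * (j + 1))) + ww n l e r * r ^ (k + 2 * (j + 2))) := by
    intro r
    have e1 : ww n l e r * ww n l k r * (1 - r ^ 2) ^ 2 =
        ww n l k r * (ww n l e r * (1 - r ^ 2) ^ 2) := by ring
    rw [e1]
    conv_lhs => rw [ww]
    rw [mul_sum, sum_mul]
    refine sum_congr rfl fun j _ => ?_
    ring
  simp_rw [e]
  rw [intervalIntegral.integral_finsetSum]
  · refine sum_congr rfl fun j _ => ?_
    have hj1 := hm (j + 1)
    have hj2 := hm (j + 2)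
    push_cast at hj1 hj2
    rw [← add_assoc] at hj1 hj2
    rw [intervalIntegral.integral_const_mul, intervalIntegral.integral_add,
      intervalIntegral.integral_sub, intervalIntegral.integral_const_mul, hm j, hj1, hj2]
    · ring
    · exact hint j
    · exact (hint (j + 1)).const_mul 2
    · exact (hint j).sub ((hint (j + 1)).const_mul 2)
    · exact hint (j + 2)
  · intro j _
    exact (((hint j).sub ((hint (j + 1)).const_mul 2)).add (hint (j + 2))).const_mul _

lemma MM_m1 (n l : ℕ) : MM n l (-1) = (-1) ^ n * (n.factorial : ℝ) / P (l : ℝ) n := by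
  rw [MM, prod_div_distrib, P, ← prod_range_add_one_eq_factorial]
  have h3 : ((-1 : ℝ)) ^ n = ∏ _h ∈ range n, (-1 : ℝ) := by
    rw [prod_const, card_range]
  rw [h3, Nat.cast_prod, ← prod_mul_distrib]
  congr 1
  · refine prod_congr rfl fun i _ => ?_
    push_cast
    ring
  · refine prod_congr rfl fun i _ => ?_
    ring

lemma MM_m2 (n l : ℕ) : MM n l (-2) = (-1) ^ n * ((n + 1).factorial : ℝ) / P ((l : ℝ) - 1) n := by
  rw [MM, prod_div_distrib, P, ← prod_range_add_one_eq_factorial, prod_range_succ']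
  have h3 : ((-1 : ℝ)) ^ n = ∏ _h ∈ range n, (-1 : ℝ) := by
    rw [prod_const, card_range]
  rw [h3, zero_add, mul_one, Nat.cast_prod, ← prod_mul_distrib]
  congr 1
  · refine prod_congr rfl fun i _ => ?_
    push_cast
    ring
  · refine prod_congr rfl fun i _ => ?_
    ring

lemma Cc_zero (m l : ℕ) : Cc (m + 1) l 0 = (-1) ^ m * P ((l : ℝ) + 1) (m + 1) / (m.factorial : ℝ) := by
  rw [Cc, P]
  have e : m + 1 - 1 - 0 = m := by omega
  rw [e, Nat.factorial_zero, Nat.cast_one, one_mul]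
  congr 2
  refine prod_congr rfl fun i _ => ?_
  push_cast
  ring

lemma Cc_one (m l : ℕ) : Cc (m + 2) l 1 = (-1) ^ m * P ((l : ℝ) + 2) (m + 2) / (m.factorial : ℝ) := by
  rw [Cc, P]
  have e : m + 2 - 1 - 1 = m := by omega
  rw [e, Nat.factorial_one, Nat.cast_one, one_mul]
  congr 2
  refine prod_congr rfl fun i _ => ?_
  ring

lemma first_term {n : ℕ} (hn : 1 ≤ n) {l : ℕ} (hl : 1 ≤ l) :
    -(Cc n l 0 * MM n l (-1)) = (n : ℝ) * (n + l) / l := by
  obtain ⟨m, rfl⟩ : ∃ m, n = m + 1 := ⟨n - 1, by omega⟩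
  rw [Cc_zero, MM_m1]
  have h := P_shift (l : ℝ) (m + 1)
  have hl' : (0 : ℝ) < l := by exact_mod_cast hl
  have hp : 0 < P (l : ℝ) (m + 1) := P_pos hl' _
  have hf : (0 : ℝ) < m.factorial := by exact_mod_cast m.factorial_pos
  rw [Nat.factorial_succ]
  have hs : ((-1 : ℝ)) ^ m * (-1) ^ (m + 1) = -1 := by
    rw [← pow_add]
    exact Odd.neg_one_pow ⟨m, by ring⟩
  push_cast at h ⊢
  rw [div_mul_div_comm, ← neg_div, div_eq_div_iff (by positivity) hl'.ne']
  have e1 : -((-1) ^ m * P ((l : ℝ) + 1) (m + 1) * ((-1) ^ (m + 1) * (((m : ℝ) + 1) * (m.factorial : ℝ)))) * l =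
      -((-1 : ℝ) ^ m * (-1) ^ (m + 1)) * (((m : ℝ) + 1) * m.factorial) * (l * P ((l : ℝ) + 1) (m + 1)) := by
    ring
  rw [e1, hs, ← h]
  ring

lemma second_term {n : ℕ} (hn : 1 ≤ n) {l : ℕ} (hl : 2 ≤ l) :
    -(Cc n l 0 * MM n l (-2)) = (n : ℝ) * (n + 1) * (n + l) * (n + l - 1) / (l * (l - 1)) := by
  obtain ⟨m, rfl⟩ : ∃ m, n = m + 1 := ⟨n - 1, by omega⟩
  rw [Cc_zero, MM_m2]
  have h := P_shift (l : ℝ) (m + 1)
  have h' := P_shift ((l : ℝ) - 1) (m + 1)
  rw [sub_add_cancel] at h'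
  have hl' : (2 : ℝ) ≤ l := by exact_mod_cast hl
  have hl0 : (0 : ℝ) < l := by linarith
  have hl1 : (0 : ℝ) < (l : ℝ) - 1 := by linarith
  have hp : 0 < P ((l : ℝ) - 1) (m + 1) := P_pos hl1 _
  have hf : (0 : ℝ) < m.factorial := by exact_mod_cast m.factorial_pos
  rw [Nat.factorial_succ (m + 1), Nat.factorial_succ]
  have hs : ((-1 : ℝ)) ^ m * (-1) ^ (m + 1) = -1 := by
    rw [← pow_add]
    exact Odd.neg_one_pow ⟨m, by ring⟩
  push_cast at h h' ⊢
  rw [div_mul_div_comm, ← neg_div, div_eq_div_iff (by positivity) (by positivity)]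
  have e1 : -((-1) ^ m * P ((l : ℝ) + 1) (m + 1) *
      ((-1) ^ (m + 1) * (((m : ℝ) + 1 + 1) * (((m : ℝ) + 1) * (m.factorial : ℝ))))) * (l * (l - 1)) =
      -((-1 : ℝ) ^ m * (-1) ^ (m + 1)) * (((m : ℝ) + 1 + 1) * ((m + 1) * m.factorial)) * (l - 1) *
        (l * P ((l : ℝ) + 1) (m + 1)) := by
    ring
  rw [e1, hs, ← h]
  linear_combination (-((m : ℝ) + 1 + 1) * ((m + 1) * m.factorial) * ((l : ℝ) + (m + 1))) * h'

lemma third_term (m : ℕ) {l : ℕ} (hl : 1 ≤ l) :
    -(Cc (m + 2) l 1 * MM (m + 2) l (-1)) =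
      -(((m + 2 : ℕ) : ℝ) * ((m + 2 : ℕ) - 1) * ((m + 2 : ℕ) + l) * ((m + 2 : ℕ) + l + 1) / (l * (l + 1))) := by
  rw [Cc_one, MM_m1]
  have h := P_shift (l : ℝ) (m + 2)
  have h' := P_shift ((l : ℝ) + 1) (m + 2)
  have e2 : (l : ℝ) + 1 + 1 = l + 2 := by ring
  rw [e2] at h'
  have hl0 : (0 : ℝ) < l := by exact_mod_cast hl
  have hp : 0 < P (l : ℝ) (m + 2) := P_pos hl0 _
  have hf : (0 : ℝ) < m.factorial := by exact_mod_cast m.factorial_pos
  rw [Nat.factorial_succ (m + 1), Nat.factorial_succ]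
  have hs : ((-1 : ℝ)) ^ m * (-1) ^ (m + 2) = 1 := by
    rw [← pow_add]
    exact Even.neg_one_pow ⟨m + 1, by ring⟩
  push_cast at h h' ⊢
  rw [div_mul_div_comm, neg_inj, div_eq_div_iff (by positivity) (by positivity)]
  have e1 : (-1) ^ m * P ((l : ℝ) + 2) (m + 2) *
      ((-1) ^ (m + 2) * (((m : ℝ) + 1 + 1) * (((m : ℝ) + 1) * (m.factorial : ℝ)))) * (l * (l + 1)) =
      ((-1 : ℝ) ^ m * (-1) ^ (m + 2)) * (((m : ℝ) + 1 + 1) * ((m + 1) * m.factorial)) * l *
        ((l + 1) * P ((l : ℝ) + 2) (m + 2)) := by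
    ring
  rw [e1, hs, ← h']
  linear_combination (-((m : ℝ) + 1 + 1) * ((m + 1) * m.factorial) * ((l : ℝ) + 1 + (m + 2))) * h

/-- the sum for `x = -1` -/
lemma sum_one {n : ℕ} (hn : 1 ≤ n) (l : ℕ) :
    ∑ j ∈ range n, 2 * Cc n l j * (2 * MM n l (-1 + j + 1) - MM n l (-1 + j + 2) - MM n l (-1 + j)) =
      2 * -(Cc n l 0 * MM n l (-1)) - 2 * (Cc n l (n - 1) * Mm n l n) := by
  have e1 : ∀ j : ℕ, MM n l (-1 + (j : ℝ) + 1) = Mm n l j := fun j => by
    rw [← MM_nat]; congr 1; ring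
  have e2 : ∀ j : ℕ, MM n l (-1 + (j : ℝ) + 2) = Mm n l (j + 1) := fun j => by
    rw [← MM_nat]; congr 1; push_cast; ring
  have e3 : ∀ j : ℕ, MM n l (-1 + ((j + 1 : ℕ) : ℝ)) = Mm n l j := fun j => by
    rw [← MM_nat]; congr 1; push_cast; ring
  simp only [e1, e2]
  rcases n with _ | _ | m
  · omega
  · rw [zero_add, sum_range_one, zero_add, Mm_zero (by omega : 0 < 1)]
    norm_num
    ring
  · rw [sum_range_succ', sum_range_succ, sum_eq_zero fun j hj => ?_]
    swap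
    · have := mem_range.1 hj
      rw [e3, Mm_zero (by omega : j + 1 < m + 1 + 1), Mm_zero (by omega : j + 1 + 1 < m + 1 + 1),
        Mm_zero (by omega : j < m + 1 + 1)]
      ring
    rw [e3, Mm_zero (by omega : m + 1 < m + 1 + 1), Mm_zero (by omega : m < m + 1 + 1),
      Mm_zero (by omega : 0 < m + 1 + 1), Mm_zero (by omega : 0 + 1 < m + 1 + 1),
      show m + 1 + 1 - 1 = m + 1 by omega, Nat.cast_zero, add_zero]
    ring

/-- the sum for `x = -2` -/
lemma sum_two {n : ℕ} (hn : 1 ≤ n) (l : ℕ) :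
    ∑ j ∈ range n, 2 * Cc n l j * (2 * MM n l (-2 + j + 1) - MM n l (-2 + j + 2) - MM n l (-2 + j)) =
      2 * -(Cc n l 0 * MM n l (-2)) - 4 * -(Cc n l 0 * MM n l (-1)) +
        (if 2 ≤ n then 2 * -(Cc n l 1 * MM n l (-1)) else 0) := by
  have e2 : ∀ j : ℕ, MM n l (-2 + (j : ℝ) + 2) = Mm n l j := fun j => by
    rw [← MM_nat]; congr 1; ring
  have e3 : ∀ j : ℕ, MM n l (-2 + ((j + 1 : ℕ) : ℝ) + 1) = Mm n l j := fun j => by
    rw [← MM_nat]; congr 1; push_cast; ring
  have e4 : ∀ j : ℕ, MM n l (-2 + ((j + 1 + 1 : ℕ) : ℝ)) = Mm n l j := fun j => by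
    rw [← MM_nat]; congr 1; push_cast; ring
  have e5 : (-2 : ℝ) + ((0 : ℕ) : ℝ) + 1 = -1 := by push_cast; ring
  have e6 : (-2 : ℝ) + ((0 : ℕ) : ℝ) = -2 := by push_cast; ring
  have e7 : (-2 : ℝ) + ((0 + 1 : ℕ) : ℝ) = -1 := by push_cast; ring
  simp only [e2]
  rcases n with _ | _ | m
  · omega
  · rw [zero_add, sum_range_one, e5, e6, Mm_zero (by omega : 0 < 1), if_neg (by omega)]
    ring
  · rw [sum_range_succ', sum_range_succ', sum_eq_zero fun j hj => ?_]
    swap
    · have := mem_range.1 hj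
      rw [e3, e4, Mm_zero (by omega : j + 1 < m + 1 + 1), Mm_zero (by omega : j + 1 + 1 < m + 1 + 1),
        Mm_zero (by omega : j < m + 1 + 1)]
      ring
    rw [e3, e5, e6, e7, Mm_zero (by omega : 0 < m + 1 + 1), Mm_zero (by omega : 0 + 1 < m + 1 + 1),
      if_pos (by omega)]
    ring

/-- **package EU** -/
theorem t_EU : S_EU := by
  intro n l hn
  have hn0 : (1 : ℝ) ≤ n := by exact_mod_cast hn
  constructor
  · intro hl
    have hl0 : (1 : ℝ) ≤ l := by exact_mod_cast hl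
    have hF := first_term hn hl
    have hL : Cc n l (n - 1) * Mm n l n = (n : ℝ) * (n + l) / (2 * n + l) := by
      obtain ⟨m, rfl⟩ : ∃ m, n = m + 1 := ⟨n - 1, by omega⟩
      exact last_term m l
    have h1 : ∀ r : ℝ, uu n l r ^ 2 * (1 - r ^ 2) ^ 2 / r =
        ww n l l r * ww n l (l - 1) r * (1 - r ^ 2) ^ 2 := by
      intro r
      have h2 := ww_succ n l (l - 1) r
      rw [show l - 1 + 1 = l by omega] at h2
      rw [uu_eq, h2]
      rcases eq_or_ne r 0 with h | h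
      · rw [h]; simp
      · field_simp
    simp only [h1]
    rw [as_sum l hn l (l - 1) (-1) (by rw [Nat.cast_add, Nat.cast_sub hl]; push_cast; ring), sum_one hn l,
      hF, hL]
    · field_simp
      ring
    · intro i j
      have h3 : (0 : ℝ) < -1 + (l : ℝ) + 1 + i + j := by
        have : (0 : ℝ) ≤ i := Nat.cast_nonneg _
        have : (0 : ℝ) ≤ j := Nat.cast_nonneg _
        linarith
      exact h3.ne'
  · intro hl
    have hl0 : (2 : ℝ) ≤ l := by exact_mod_cast hl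
    have hF := first_term hn (by omega : 1 ≤ l)
    have hS := second_term hn hl
    have h1 : ∀ r : ℝ, uu n l r ^ 2 * (1 - r ^ 2) ^ 2 / r ^ 3 =
        ww n l (l - 1) r * ww n l (l - 2) r * (1 - r ^ 2) ^ 2 := by
      intro r
      have h2 := ww_succ n l (l - 1) r
      have h3 := ww_succ n l (l - 2) r
      rw [show l - 1 + 1 = l by omega] at h2
      rw [show l - 2 + 1 = l - 1 by omega] at h3
      rw [uu_eq, h2, h3]
      rcases eq_or_ne r 0 with h | h
      · rw [h]; simp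
      · field_simp
    simp only [h1]
    rw [as_sum l hn (l - 1) (l - 2) (-2)
      (by rw [Nat.cast_add, Nat.cast_sub (by omega : 1 ≤ l), Nat.cast_sub hl]; push_cast; ring),
      sum_two hn l, hF, hS]
    · have hl1 : (l : ℝ) - 1 ≠ 0 := by
        have : (0 : ℝ) < (l : ℝ) - 1 := by linarith
        exact this.ne'
      have hl2 : (l : ℝ) ^ 2 - 1 = (l - 1) * (l + 1) := by ring
      have hl3 : (l : ℝ) ≠ 0 := by positivity
      have hl4 : (l : ℝ) + 1 ≠ 0 := by positivity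
      rw [hl2]
      split_ifs with h2
      · obtain ⟨m, rfl⟩ : ∃ m, n = m + 2 := ⟨n - 2, by omega⟩
        rw [third_term m (by omega : 1 ≤ l)]
        push_cast
        field_simp
        ring
      · have : n = 1 := by omega
        subst this
        push_cast
        field_simp
        ring
    · intro i j
      have h3 : (0 : ℝ) < -2 + (l : ℝ) + 1 + i + j := by
        have : (0 : ℝ) ≤ i := Nat.cast_nonneg _
        have : (0 : ℝ) ≤ j := Nat.cast_nonneg _
        linarith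
      exact h3.ne'

end Pool.Agent.U823.RAD.EU
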